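import Mathlib

/-!
# Fair coins
-/

namespace Pool.Agent.H13R2.RM

open MeasureTheory ENNReal

/-- One fair coin. -/
noncomputable def coin : Measure Bool := (PMF.uniformOfFintype Bool).toMeasure

instance : IsProbabilityMeasure coin := by unfold coin; infer_instance

/-- The law of an infinite sequence of independent fair coins. -/
noncomputable def fair : Measure (ℕ → Bool) := Measure.infinitePi fun _ => coin

instance : IsProbabilityMeasure fair := by unfold fair; infer_instance

/-- The list of the first `n` coins. -/
def coins (ω : ℕ → Bool) (n : ℕ) : List Bool := (List.range n).map ω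

/-- The sequence with a coin put in front. -/
def scons (b : Bool) (ω : ℕ → Bool) : ℕ → Bool
  | 0 => b
  | n + 1 => ω n

/-- The sequence without its first `n` coins. -/
def shift (n : ℕ) (ω : ℕ → Bool) : ℕ → Bool := fun i => ω (n + i)

theorem measurable_scons (b : Bool) : Measurable (scons b) := by
  refine measurable_pi_iff.2 fun i => ?_
  cases i with
  | zero => exact measurable_const
  | succ n => exact measurable_pi_apply n

theorem measurable_shift (n : ℕ) : Measurable (shift n) :=
  measurable_pi_iff.2 fun _ => measurable_pi_apply _

theorem coin_apply (s : Set Bool) :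
    coin s = 2⁻¹ * (s.indicator 1 true + s.indicator 1 false) := by
  unfold coin
  rw [PMF.toMeasure_apply_fintype]
  by_cases h1 : true ∈ s <;> by_cases h2 : false ∈ s <;> simp [h1, h2, mul_add]

theorem fair_scons : (2⁻¹ : ℝ≥0∞) • fair.map (scons true) + (2⁻¹ : ℝ≥0∞) • fair.map (scons false) =
    fair := by
  classical
  conv_rhs => unfold fair
  refine Measure.eq_infinitePi _ fun s t ht => ?_
  have key : ∀ b, fair.map (scons b) (Set.pi s t) =
      (if 0 ∈ s then (t 0).indicator (1 : Bool → ℝ≥0∞) b else 1) *
        ∏ i ∈ s.erase 0, coin (t i) := by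
    intro b
    rw [Measure.map_apply (measurable_scons b)
      (MeasurableSet.pi (Finset.countable_toSet s) fun i _ => ht i)]
    by_cases hb : 0 ∈ s → b ∈ t 0
    · have e1 : scons b ⁻¹' (Set.pi s t) =
          Set.pi ((s.erase 0).preimage Nat.succ (Nat.succ_injective.injOn)) (fun i => t (i + 1)) := by
        ext ω
        simp only [Set.mem_preimage, Set.mem_pi, Finset.mem_coe, Finset.mem_preimage,
          Finset.mem_erase]
        constructor
        · intro h i hi
          exact h (i + 1) hi.2
        · intro h i hi
          cases i with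
          | zero => exact hb hi
          | succ i => exact h i ⟨by simp, hi⟩
      rw [e1]
      unfold fair
      rw [Measure.infinitePi_pi _ (fun i _ => ht _)]
      have e2 : (if 0 ∈ s then (t 0).indicator (1 : Bool → ℝ≥0∞) b else 1) = 1 := by
        split_ifs with h0
        · simp [hb h0]
        · rfl
      rw [e2, one_mul]
      rw [Finset.prod_preimage Nat.succ (s.erase 0) Nat.succ_injective.injOn
        (fun i => coin (t i))]
      intro i hi hi'
      exfalso
      apply hi'
      have := Finset.ne_of_mem_erase hi
      exact ⟨i - 1, by simp only [Nat.succ_eq_add_one]; omega⟩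
    · push Not at hb
      have e1 : scons b ⁻¹' (Set.pi s t) = ∅ := by
        ext ω
        simp only [Set.mem_preimage, Set.mem_pi, Set.mem_empty_iff_false, iff_false]
        intro h
        exact hb.2 (h 0 hb.1)
      rw [e1, measure_empty, if_pos hb.1]
      simp [hb.2]
  rw [Measure.add_apply, Measure.smul_apply, Measure.smul_apply, key, key]
  by_cases h0 : 0 ∈ s
  · rw [if_pos h0, if_pos h0, ← Finset.mul_prod_erase s _ h0, coin_apply]
    simp only [smul_eq_mul]
    ring
  · rw [if_neg h0, if_neg h0, Finset.erase_eq_of_notMem h0]
    simp only [smul_eq_mul, one_mul]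
    rw [← add_mul, ENNReal.inv_two_add_inv_two, one_mul]

theorem fair_cons {E : Set (ℕ → Bool)} (hE : MeasurableSet E) :
    fair E = 2⁻¹ * fair (scons true ⁻¹' E) + 2⁻¹ * fair (scons false ⁻¹' E) := by
  conv_lhs => rw [← fair_scons]
  rw [Measure.add_apply, Measure.smul_apply, Measure.smul_apply,
    Measure.map_apply (measurable_scons _) hE, Measure.map_apply (measurable_scons _) hE]
  rfl

theorem coins_zero (ω : ℕ → Bool) : coins ω 0 = [] := rfl

theorem coins_length (ω : ℕ → Bool) (n : ℕ) : (coins ω n).length = n := by simp [coins]

theorem coins_scons (b : Bool) (ω : ℕ → Bool) (n : ℕ) :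
    coins (scons b ω) (n + 1) = b :: coins ω n := by
  unfold coins
  rw [List.range_succ_eq_map, List.map_cons, List.map_map]
  rfl

theorem shift_scons (b : Bool) (ω : ℕ → Bool) (n : ℕ) :
    shift (n + 1) (scons b ω) = shift n ω := by
  funext i
  unfold shift
  have : n + 1 + i = (n + i) + 1 := by ring
  rw [this]
  rfl

theorem coins_add (ω : ℕ → Bool) (a b : ℕ) :
    coins ω (a + b) = coins ω a ++ coins (shift a ω) b := by
  unfold coins shift
  rw [List.range_add, List.map_append, List.map_map]
  rfl

theorem measurableSet_coins (n : ℕ) (P : List Bool → Prop) :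
    MeasurableSet {ω | P (coins ω n)} := by
  have h : Measurable (fun ω : ℕ → Bool => (fun i : Fin n => ω i)) :=
    measurable_pi_iff.2 fun _ => measurable_pi_apply _
  have : {ω : ℕ → Bool | P (coins ω n)} =
      (fun ω : ℕ → Bool => (fun i : Fin n => ω i)) ⁻¹' {u | P (List.ofFn u)} := by
    ext ω
    simp only [Set.mem_ofPred_eq, Set.mem_preimage]
    have : coins ω n = List.ofFn (fun i : Fin n => ω i) := by
      unfold coins
      apply List.ext_getElem
      · simp
      · intro i h1 h2
        simp
    rw [this]
  rw [this]
  exact h (Set.toFinite _).measurableSet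

/-- **Independence of the past and the future.** -/
theorem fair_split (n : ℕ) : ∀ (P : List Bool → Prop) {R : Set (ℕ → Bool)}, MeasurableSet R →
    fair {ω | P (coins ω n) ∧ shift n ω ∈ R} = fair {ω | P (coins ω n)} * fair R := by
  induction n with
  | zero =>
    intro P R hR
    have e : ∀ ω : ℕ → Bool, shift 0 ω = ω := fun ω => by funext i; simp [shift]
    by_cases hP : P []
    · simp [coins_zero, hP, e]
    · simp [coins_zero, hP]
  | succ n ih =>
    intro P R hR
    have h1 : MeasurableSet {ω | P (coins ω (n + 1)) ∧ shift (n + 1) ω ∈ R} :=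
      (measurableSet_coins (n + 1) P).inter (measurable_shift (n + 1) hR)
    rw [fair_cons h1, fair_cons (measurableSet_coins (n + 1) P)]
    have e : ∀ b, scons b ⁻¹' {ω | P (coins ω (n + 1)) ∧ shift (n + 1) ω ∈ R} =
        {ω | P (b :: coins ω n) ∧ shift n ω ∈ R} := by
      intro b; ext ω; simp [coins_scons, shift_scons]
    have e' : ∀ b, scons b ⁻¹' {ω | P (coins ω (n + 1))} = {ω | P (b :: coins ω n)} := by
      intro b; ext ω; simp [coins_scons]
    rw [e, e, e', e', ih (fun l => P (true :: l)) hR, ih (fun l => P (false :: l)) hR]
    ring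

/-- All words of length `n`. -/
def words : ℕ → List (List Bool)
  | 0 => [[]]
  | n + 1 => (words n).map (true :: ·) ++ (words n).map (false :: ·)

theorem length_words (n : ℕ) : (words n).length = 2 ^ n := by
  induction n with
  | zero => rfl
  | succ n ih => simp [words, ih, pow_succ]; ring

theorem mem_words {n : ℕ} {w : List Bool} : w ∈ words n ↔ w.length = n := by
  induction n generalizing w with
  | zero => simp [words]
  | succ n ih =>
    cases w with
    | nil => simp [words]
    | cons b w => cases b <;> simp [words, ih]

/-- The probability of an event about the first `n` coins is a proportion of words. -/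
theorem fair_coins (n : ℕ) : ∀ (P : List Bool → Bool),
    fair {ω | P (coins ω n) = true} = ((words n).countP P : ℝ≥0∞) / 2 ^ n := by
  induction n with
  | zero =>
    intro P
    by_cases hP : P [] = true
    · simp [coins_zero, hP, words]
    · simp [coins_zero, hP, words]
  | succ n ih =>
    intro P
    rw [fair_cons (measurableSet_coins (n + 1) (fun l => P l = true))]
    have e' : ∀ b, scons b ⁻¹' {ω | P (coins ω (n + 1)) = true} =
        {ω | P (b :: coins ω n) = true} := by
      intro b; ext ω; simp [coins_scons]
    rw [e', e', ih (fun l => P (true :: l)), ih (fun l => P (false :: l))]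
    simp only [words, List.countP_append, List.countP_map]
    push_cast
    rw [ENNReal.div_eq_inv_mul, ENNReal.div_eq_inv_mul, ENNReal.div_eq_inv_mul, pow_succ,
      ENNReal.mul_inv (by simp) (by simp)]
    have e3 : ∀ b : Bool, (P ∘ fun x => b :: x) = fun l => P (b :: l) := fun b => rfl
    rw [e3, e3]
    ring

end Pool.Agent.H13R2.RM
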