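import Pool.Agent.H13R2.RM.Coins

/-!
# The law of a two-phase sampler
-/

namespace Pool.Agent.H13R2.RM

open MeasureTheory ENNReal

/-- All coins are `true`. -/
def ones (w : List Bool) : Bool := w.all id

theorem shift_shift (a b : ℕ) (ω : ℕ → Bool) : shift a (shift b ω) = shift (b + a) ω := by
  funext i
  unfold shift
  rw [add_assoc]

theorem countP_ones (k : ℕ) : (words k).countP ones = 1 := by
  induction k with
  | zero => rfl
  | succ k ih =>
    simp only [words, List.countP_append, List.countP_map]
    have e1 : (ones ∘ fun x => true :: x) = ones := by funext x; simp [ones]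
    have e2 : (ones ∘ fun x => false :: x) = fun _ => false := by funext x; simp [ones]
    rw [e1, e2, ih]
    simp

theorem fair_ones (k : ℕ) : fair {ω | ones (coins ω k) = true} = (2 ^ k)⁻¹ := by
  rw [fair_coins, countP_ones]
  simp

theorem countP_not_ones (k : ℕ) : (words k).countP (fun w => !ones w) = 2 ^ k - 1 := by
  have h1 := List.length_eq_countP_add_countP ones (l := words k)
  rw [length_words, countP_ones] at h1
  have h2 : (words k).countP (fun w => !ones w) = (words k).countP (fun w => ¬ (ones w = true)) := by
    refine List.countP_congr ?_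
    intro w _
    simp
  rw [h2]
  omega

theorem fair_not_ones (k : ℕ) :
    fair {ω | (!ones (coins ω k)) = true} = ((2 ^ k - 1 : ℕ) : ℝ≥0∞) / 2 ^ k := by
  rw [fair_coins k (fun w => !ones w), countP_not_ones]

section

variable {β : Type}

/-- The block process rejects its first `j` blocks. -/
def REJ (g : List Bool → Option β) (b j : ℕ) : Set (ℕ → Bool) :=
  {ω | ∀ i < j, g (coins (shift (i * b) ω) b) = none}

/-- The block process accepts at block `j` with value `y`. -/
def ACC (g : List Bool → Option β) (b j : ℕ) (y : β) : Set (ℕ → Bool) :=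
  {ω | (∀ i < j, g (coins (shift (i * b) ω) b) = none) ∧ g (coins (shift (j * b) ω) b) = some y}

theorem measurable_block (g : List Bool → Option β) (b i : ℕ) (o : Option β) :
    MeasurableSet {ω | g (coins (shift (i * b) ω) b) = o} :=
  measurable_shift (i * b) (measurableSet_coins b (fun w => g w = o))

theorem measurable_REJ (g : List Bool → Option β) (b j : ℕ) : MeasurableSet (REJ g b j) := by
  have : REJ g b j = ⋂ i : ℕ, ⋂ _ : i < j, {ω | g (coins (shift (i * b) ω) b) = none} := by
    ext ω; simp [REJ]
  rw [this]
  exact MeasurableSet.iInter fun i => MeasurableSet.iInter fun _ => measurable_block g b i none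

theorem measurable_ACC (g : List Bool → Option β) (b j : ℕ) (y : β) :
    MeasurableSet (ACC g b j y) :=
  (measurable_REJ g b j).inter (measurable_block g b j (some y))

theorem fair_REJ (g : List Bool → Option β) (b : ℕ) : ∀ j,
    fair (REJ g b j) = (fair {ω | g (coins ω b) = none}) ^ j := by
  intro j
  induction j with
  | zero =>
    have : REJ g b 0 = Set.univ := by ext ω; simp [REJ]
    rw [this]; simp
  | succ j ih =>
    have : REJ g b (j + 1) = {ω | g (coins ω b) = none ∧ shift b ω ∈ REJ g b j} := by
      ext ω
      simp only [REJ, Set.mem_ofPred_eq]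
      constructor
      · intro h
        refine ⟨?_, fun i hi => ?_⟩
        · have := h 0 (by omega)
          have e : shift (0 * b) ω = ω := by funext i; simp [shift]
          rwa [e] at this
        · have := h (i + 1) (by omega)
          rw [shift_shift]
          rwa [show b + i * b = (i + 1) * b by ring]
      · rintro ⟨h1, h2⟩ i hi
        cases i with
        | zero =>
          have e : shift (0 * b) ω = ω := by funext i; simp [shift]
          rwa [e]
        | succ i =>
          have := h2 i (by omega)
          rw [shift_shift] at this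
          rwa [show b + i * b = (i + 1) * b by ring] at this
    rw [this, fair_split b (fun w => g w = none) (measurable_REJ g b j), ih, pow_succ']

theorem fair_ACC (g : List Bool → Option β) (b : ℕ) (y : β) : ∀ j,
    fair (ACC g b j y) = (fair {ω | g (coins ω b) = none}) ^ j *
      fair {ω | g (coins ω b) = some y} := by
  intro j
  induction j with
  | zero =>
    have : ACC g b 0 y = {ω | g (coins ω b) = some y} := by
      ext ω
      have e : shift 0 ω = ω := by funext i; simp [shift]
      simp [ACC, e]
    rw [this]; simp
  | succ j ih =>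
    have : ACC g b (j + 1) y = {ω | g (coins ω b) = none ∧ shift b ω ∈ ACC g b j y} := by
      ext ω
      have e0 : shift (0 * b) ω = ω := by funext i; simp [shift]
      have e1 : ∀ i, shift (i * b) (shift b ω) = shift ((i + 1) * b) ω := by
        intro i; rw [shift_shift]; congr 1; ring
      simp only [ACC, Set.mem_ofPred_eq, e1]
      constructor
      · rintro ⟨h1, h2⟩
        refine ⟨?_, fun i hi => h1 (i + 1) (by omega), h2⟩
        have := h1 0 (by omega)
        rwa [e0] at this
      · rintro ⟨h1, h2, h3⟩
        refine ⟨fun i hi => ?_, h3⟩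
        cases i with
        | zero => rwa [e0]
        | succ i => exact h2 i (by omega)
    rw [this, fair_split b (fun w => g w = none) (measurable_ACC g b j y), ih, pow_succ']
    ring

theorem fair_ACC_union (g : List Bool → Option β) (b : ℕ) (y : β) :
    fair (⋃ j, ACC g b j y) = fair {ω | g (coins ω b) = some y} /
      (1 - fair {ω | g (coins ω b) = none}) := by
  rw [measure_iUnion]
  · rw [tsum_congr fun j => fair_ACC g b y j, ENNReal.tsum_mul_right, ENNReal.tsum_geometric,
      ENNReal.div_eq_inv_mul]
  · intro i j hij
    rw [Function.onFun, Set.disjoint_left]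
    rintro ω ⟨h1, h2⟩ ⟨h3, h4⟩
    rcases Nat.lt_or_gt_of_ne hij with h | h
    · rw [h3 i h] at h2; exact absurd h2 (by simp)
    · rw [h1 j h] at h4; exact absurd h4 (by simp)
  · exact fun j => measurable_ACC g b j y

/-- The specification of a two-phase decision rule `D` on prefixes: unless the first `k` coins are
all `true`, it outputs `f` of the next `M` coins; otherwise it skips `K` coins and then looks at
blocks of `b` coins until `g` accepts. -/
structure Spec (D : List Bool → Option β) (k M K b : ℕ) (f : List Bool → β)
    (g : List Bool → Option β) : Prop where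
  bpos : 0 < b
  a_none : ∀ (ω : ℕ → Bool) n, ones (coins ω k) = false → n < k + M → D (coins ω n) = none
  a_some : ∀ ω : ℕ → Bool, ones (coins ω k) = false →
    D (coins ω (k + M)) = some (f (coins (shift k ω) M))
  b_none : ∀ (ω : ℕ → Bool) n, ones (coins ω k) = true → (∀ j, n ≠ k + K + (j + 1) * b) →
    D (coins ω n) = none
  b_some : ∀ (ω : ℕ → Bool) j, ones (coins ω k) = true →
    D (coins ω (k + K + (j + 1) * b)) = g (coins (shift (k + K + j * b) ω) b)

/-- The rule `D` stops after `n` coins with value `y`. -/
def Stops (D : List Bool → Option β) (ω : ℕ → Bool) (n : ℕ) (y : β) : Prop :=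
  (∀ i < n, D (coins ω i) = none) ∧ D (coins ω n) = some y

theorem Stops.unique {D : List Bool → Option β} {ω : ℕ → Bool} {n n' : ℕ} {y y' : β}
    (h : Stops D ω n y) (h' : Stops D ω n' y') : n = n' ∧ y = y' := by
  obtain ⟨h1, h2⟩ := h
  obtain ⟨h3, h4⟩ := h'
  rcases Nat.lt_trichotomy n n' with hl | hl | hl
  · rw [h3 n hl] at h2; exact absurd h2 (by simp)
  · subst hl
    rw [h2] at h4
    exact ⟨rfl, Option.some.inj h4⟩
  · rw [h1 n' hl] at h4; exact absurd h4 (by simp)

variable {D : List Bool → Option β} {k M K b : ℕ} {f : List Bool → β} {g : List Bool → Option β}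

theorem Spec.stops_a (h : Spec D k M K b f g) {ω : ℕ → Bool} (ho : ones (coins ω k) = false) :
    Stops D ω (k + M) (f (coins (shift k ω) M)) :=
  ⟨fun i hi => h.a_none ω i ho hi, h.a_some ω ho⟩

theorem Spec.stops_b (h : Spec D k M K b f g) {ω : ℕ → Bool} (ho : ones (coins ω k) = true) {j : ℕ}
    {y : β} (hj : shift (k + K) ω ∈ ACC g b j y) : Stops D ω (k + K + (j + 1) * b) y := by
  obtain ⟨h1, h2⟩ := hj
  simp only [shift_shift] at h1 h2
  refine ⟨fun i hi => ?_, by rw [h.b_some ω j ho]; exact h2⟩
  by_cases hex : ∃ j', i = k + K + (j' + 1) * b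
  · obtain ⟨j', rfl⟩ := hex
    rw [h.b_some ω j' ho]
    refine h1 j' ?_
    have hlt : (j' + 1) * b < (j + 1) * b := by omega
    have := lt_of_mul_lt_mul_right hlt (Nat.zero_le b)
    omega
  · push Not at hex
    exact h.b_none ω i ho hex

theorem Spec.law (h : Spec D k M K b f g) (y : β) :
    fair {ω | ∃ n, Stops D ω n y} =
      ((2 ^ k - 1 : ℕ) : ℝ≥0∞) / 2 ^ k * fair {ω | f (coins ω M) = y} +
      (2 ^ k)⁻¹ * (fair {ω | g (coins ω b) = some y} / (1 - fair {ω | g (coins ω b) = none})) := by
  have hset : {ω | ∃ n, Stops D ω n y} =
      {ω | (!ones (coins ω k)) = true ∧ shift k ω ∈ {ω | f (coins ω M) = y}} ∪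
      {ω | ones ((coins ω (k + K)).take k) = true ∧ shift (k + K) ω ∈ ⋃ j, ACC g b j y} := by
    ext ω
    have htake : (coins ω (k + K)).take k = coins ω k := by
      rw [coins_add, List.take_left' (coins_length ω k)]
    simp only [Set.mem_ofPred_eq, Set.mem_union, htake, Set.mem_iUnion]
    constructor
    · rintro ⟨n, hn⟩
      cases ho : ones (coins ω k) with
      | false =>
        left
        exact ⟨rfl, ((h.stops_a ho).unique hn).2⟩
      | true =>
        right
        refine ⟨rfl, ?_⟩
        have hex : ∃ j, n = k + K + (j + 1) * b := by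
          by_contra hcon
          push Not at hcon
          have := h.b_none ω n ho hcon
          rw [hn.2] at this
          exact absurd this (by simp)
        obtain ⟨j, rfl⟩ := hex
        refine ⟨j, fun i hi => ?_, ?_⟩
        · rw [shift_shift, ← h.b_some ω i ho]
          refine hn.1 _ ?_
          have := h.bpos
          have : (i + 1) * b < (j + 1) * b := Nat.mul_lt_mul_of_pos_right (by omega) this
          omega
        · rw [shift_shift, ← h.b_some ω j ho]
          exact hn.2
    · rintro (⟨h1, h2⟩ | ⟨h1, j, hj⟩)
      · have ho : ones (coins ω k) = false := by simpa using h1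
        exact ⟨k + M, h2 ▸ h.stops_a ho⟩
      · exact ⟨_, h.stops_b h1 hj⟩
  have hU : MeasurableSet (⋃ j, ACC g b j y) := MeasurableSet.iUnion fun j => measurable_ACC g b j y
  rw [hset, measure_union]
  · rw [fair_split k (fun w => (!ones w) = true) (measurableSet_coins M (fun w => f w = y)),
      fair_not_ones,
      fair_split (k + K) (fun w => ones (w.take k) = true) hU, fair_ACC_union]
    congr 2
    have : {ω | ones ((coins ω (k + K)).take k) = true} = {ω | ones (coins ω k) = true} := by
      ext ω
      have htake : (coins ω (k + K)).take k = coins ω k := by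
        rw [coins_add, List.take_left' (coins_length ω k)]
      simp only [Set.mem_ofPred_eq, htake]
    rw [this, fair_ones]
  · rw [Set.disjoint_left]
    rintro ω ⟨h1, _⟩ ⟨h2, _⟩
    have htake : (coins ω (k + K)).take k = coins ω k := by
      rw [coins_add, List.take_left' (coins_length ω k)]
    rw [htake] at h2
    rw [h2] at h1
    exact absurd h1 (by simp)
  · exact (measurableSet_coins (k + K) (fun w => ones (w.take k) = true)).inter
      (measurable_shift (k + K) hU)

end

end Pool.Agent.H13R2.RM
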