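import Pool.Agent.H671R2.PolyAuto

/-!
# A program with a stack of coins that runs a polynomial-time test on longer and longer prefixes
-/

namespace Pool.Agent.H13R2.RM

open Pool.Agent.NPC Function

/-- Renaming of stacks that avoids the stacks `1` (coins) and `2` (flag). -/
def ren (i : ℕ) : ℕ := if i = 0 then 0 else i + 2

theorem ren_inj : Function.Injective ren := by
  intro i j h
  unfold ren at h
  split_ifs at h <;> omega

theorem map_ren {c : Cmd ℕ} {x y : List Bool} {t : ℕ} (h : Run c (inp x) (inp y) t)
    (b f : List Bool) : Run (c.map ren) (st x b f) (st y b f) t := by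
  obtain ⟨S', h1, h2, h3⟩ := h.map ren_inj (st x b f) (by
    funext i
    unfold ren
    by_cases hi : i = 0
    · subst hi; simp [inp]
    · rw [if_neg hi]
      obtain ⟨j, rfl⟩ : ∃ j, i = j + 1 := ⟨i - 1, by omega⟩
      simp [inp, st])
  have : S' = st y b f := by
    funext i
    match i with
    | 0 => have := congrFun h2 0; simpa [ren, inp] using this
    | 1 => rw [h3 1 (by rintro ⟨j, hj⟩; unfold ren at hj; split_ifs at hj; omega)]; rfl
    | 2 =>
      rw [h3 2 (by
        rintro ⟨j, hj⟩; unfold ren at hj; split_ifs at hj ; omega)]; rfl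
    | n + 3 =>
      have := congrFun h2 (n + 1)
      simpa [ren, inp, st] using this
  rw [← this]
  exact h1

/-- Read a coin from stack `1` and append it to the state on stack `0`. -/
def coinPart : Cmd ℕ :=
  Cmd.seq (Cmd.pop 0) (Cmd.seq (Cmd.pop 0) (Cmd.cases 1 Cmd.skip
    (Cmd.seq (Cmd.pop 1) (Cmd.seq (Cmd.push 0 false) (Cmd.seq (Cmd.push 0 true)
      (Cmd.push 0 true))))
    (Cmd.seq (Cmd.pop 1) (Cmd.seq (Cmd.push 0 false) (Cmd.seq (Cmd.push 0 false)
      (Cmd.seq (Cmd.push 0 true) (Cmd.seq (Cmd.push 0 true) (Cmd.push 0 true))))))))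

/-- Finish: remove the tag of the output and the flag. -/
def donePart : Cmd ℕ :=
  Cmd.seq (Cmd.pop 0) (Cmd.seq (Cmd.pop 0) (Cmd.seq (Cmd.pop 0) (Cmd.pop 2)))

/-- The body of the main loop. -/
def body (c : Cmd ℕ) : Cmd ℕ :=
  Cmd.seq (c.map ren) (Cmd.seq (Cmd.pop 0) (Cmd.cases 0 Cmd.skip coinPart donePart))

/-- The whole program. -/
def prog (c : Cmd ℕ) : Cmd ℕ :=
  Cmd.seq (Cmd.push 0 false) (Cmd.seq (Cmd.push 0 true) (Cmd.seq (Cmd.push 2 true)
    (Cmd.loop 2 (body c))))

theorem run_eq {c : Cmd ℕ} {s s' s₁ s₁' : ℕ → List Bool} {t t' : ℕ} (h : Run c s s' t)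
    (e₁ : s = s₁) (e₂ : s' = s₁') (e₃ : t = t') : Run c s₁ s₁' t' := by
  subst e₁ e₂ e₃; exact h

theorem push_st0 (x b f : List Bool) (v : Bool) :
    Run (Cmd.push 0 v) (st x b f) (st (v :: x) b f) 1 :=
  run_eq (Run.push _ 0 v) rfl (by simp) rfl

theorem pop_st0 (x b f : List Bool) : Run (Cmd.pop 0) (st x b f) (st x.tail b f) 1 :=
  run_eq (Run.pop _ 0) rfl (by simp) rfl

theorem pop_st1 (x b f : List Bool) : Run (Cmd.pop 1) (st x b f) (st x b.tail f) 1 :=
  run_eq (Run.pop _ 1) rfl (by simp) rfl

theorem pop_st2 (x b f : List Bool) : Run (Cmd.pop 2) (st x b f) (st x b f.tail) 1 :=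
  run_eq (Run.pop _ 2) rfl (by simp) rfl

theorem push_st2 (x b f : List Bool) (v : Bool) :
    Run (Cmd.push 2 v) (st x b f) (st x b (v :: f)) 1 :=
  run_eq (Run.push _ 2 v) rfl (by simp) rfl

section

variable {α β : Type} [TEnc α] [TEnc β]

theorem bits_cons_pair (b : Bool) (w : List Bool) (a : α) :
    bits (b :: w, a) = true :: true :: (bits b ++ (toT w).enc ++ (toT a).enc) := by
  simp [bits, T.enc]

theorem bits_pair_eq (w : List Bool) (a : α) :
    bits (w, a) = true :: ((toT w).enc ++ (toT a).enc) := by
  simp [bits, T.enc]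

/-- The time of reading the coin `b`. -/
def ct (b : Bool) : ℕ := if b then 9 else 7

theorem coinPart_run (b : Bool) (w : List Bool) (a : α) (rest f : List Bool) :
    Run coinPart (st (false :: bits (w, a)) (b :: rest) f) (st (bits (b :: w, a)) rest f)
      (ct b) := by
  have h1 := pop_st0 (false :: bits (w, a)) (b :: rest) f
  have h2 := pop_st0 (bits (w, a)) (b :: rest) f
  rw [bits_cons_pair]
  rw [bits_pair_eq] at h1 h2 ⊢
  set X : List Bool := (toT w).enc ++ (toT a).enc with hX
  cases b
  · have h3 := pop_st1 X (false :: rest) f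
    have h4 := push_st0 X rest f false
    have h5 := push_st0 (false :: X) rest f true
    have h6 := push_st0 (true :: false :: X) rest f true
    have h7 := h3.seq (h4.seq (h5.seq h6))
    have h8 := Run.casesFalse (k := 1) (c₀ := Cmd.skip) (ct := (Cmd.seq (Cmd.pop 1)
      (Cmd.seq (Cmd.push 0 false) (Cmd.seq (Cmd.push 0 false)
      (Cmd.seq (Cmd.push 0 true) (Cmd.seq (Cmd.push 0 true) (Cmd.push 0 true)))))))
      (l := rest) (by simp) h7
    refine run_eq (h1.seq (h2.seq h8)) rfl ?_ (by simp [ct])
    simp [bits, T.enc, hX]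
  · have h3 := pop_st1 X (true :: rest) f
    have h4 := push_st0 X rest f false
    have h5 := push_st0 (false :: X) rest f false
    have h6 := push_st0 (false :: false :: X) rest f true
    have h6' := push_st0 (true :: false :: false :: X) rest f true
    have h6'' := push_st0 (true :: true :: false :: false :: X) rest f true
    have h7 := h3.seq (h4.seq (h5.seq (h6.seq (h6'.seq h6''))))
    have h8 := Run.casesTrue (k := 1) (c₀ := Cmd.skip) (cf := (Cmd.seq (Cmd.pop 1)
      (Cmd.seq (Cmd.push 0 false) (Cmd.seq (Cmd.push 0 true)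
      (Cmd.push 0 true))))) (l := rest) (by simp) h7
    refine run_eq (h1.seq (h2.seq h8)) rfl ?_ (by simp [ct])
    simp [bits, T.enc, hX]

theorem donePart_run (y : β) (rest : List Bool) :
    Run donePart (st (true :: false :: false :: bits y) rest [true]) (st (bits y) rest []) 4 := by
  have h1 := pop_st0 (true :: false :: false :: bits y) rest [true]
  have h2 := pop_st0 (false :: false :: bits y) rest [true]
  have h3 := pop_st0 (false :: bits y) rest [true]
  have h4 := pop_st2 (bits y) rest [true]
  exact run_eq (h1.seq (h2.seq (h3.seq h4))) rfl rfl rfl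

/-- The test with its state. -/
def tagged (Ψ : List Bool × α → Option β) (s : List Bool × α) : (List Bool × α) ⊕ β :=
  (Ψ s).elim (Sum.inl s) Sum.inr

theorem poly_tagged {Ψ : List Bool × α → Option β} (h : Poly Ψ) : Poly (tagged Ψ) := by
  have := Poly.optCases (o := Ψ) (g := fun s => (Sum.inl s : (List Bool × α) ⊕ β))
    (h := fun _ y => Sum.inr y) h (Poly.inl Poly.id) (Poly.inr (Poly.snd Poly.id))
  refine this.congr fun s => ?_
  unfold tagged
  cases Ψ s <;> rfl

theorem body_coin {c : Cmd ℕ} {Ψ : List Bool × α → Option β} {w : List Bool} {a : α} {t : ℕ}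
    (hc : Run c (inp (bits (w, a))) (inp (bits (tagged Ψ (w, a)))) t) (hn : Ψ (w, a) = none)
    (b : Bool) (rest f : List Bool) :
    Run (body c) (st (bits (w, a)) (b :: rest) f) (st (bits (b :: w, a)) rest f)
      (t + (1 + (ct b + 1))) := by
  have h1 := map_ren hc (b :: rest) f
  have e : bits (tagged Ψ (w, a)) = true :: false :: bits (w, a) := by
    unfold tagged
    rw [hn]
    simp [bits, T.enc]
  rw [e] at h1
  have h2 := pop_st0 (true :: false :: bits (w, a)) (b :: rest) f
  have h3 := Run.casesFalse (k := 0) (c₀ := Cmd.skip) (ct := donePart) (l := bits (w, a))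
    (by simp) (coinPart_run b w a rest f)
  exact h1.seq (h2.seq h3)

theorem body_done {c : Cmd ℕ} {Ψ : List Bool × α → Option β} {w : List Bool} {a : α} {t : ℕ}
    (hc : Run c (inp (bits (w, a))) (inp (bits (tagged Ψ (w, a)))) t) {y : β}
    (hy : Ψ (w, a) = some y) (rest : List Bool) :
    Run (body c) (st (bits (w, a)) rest [true]) (st (bits y) rest []) (t + (1 + (4 + 1))) := by
  have h1 := map_ren hc rest [true]
  have e : bits (tagged Ψ (w, a)) = true :: true :: false :: false :: bits y := by
    unfold tagged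
    rw [hy]
    simp [bits, T.enc]
  rw [e] at h1
  have h2 := pop_st0 (true :: true :: false :: false :: bits y) rest [true]
  have h3 := Run.casesTrue (k := 0) (c₀ := Cmd.skip) (cf := coinPart)
    (l := false :: false :: bits y) (by simp) (donePart_run y rest)
  exact h1.seq (h2.seq h3)

theorem sz_word_le (w : List Bool) : sz w ≤ 4 * w.length + 1 := by
  induction w with
  | nil => simp
  | cons b w ih =>
    have := sz_bool_le b
    simp only [sz_list_cons, List.length_cons]
    omega

theorem loop_run {c : Cmd ℕ} {p : Polynomial ℕ} {Ψ : List Bool × α → Option β}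
    (hc : ∀ s, Runs c (inp (bits s)) (inp (bits (tagged Ψ s))) (p.eval (bits s).length)) (a : α)
    {y : β} : ∀ (cs w : List Bool),
      (∀ i < cs.length, Ψ ((cs.take i).reverse ++ w, a) = none) →
      Ψ (cs.reverse ++ w, a) = some y →
      ∃ t ≤ (cs.length + 1) * (p.eval (sz a + 4 * (cs.length + w.length) + 2) + 20), ∀ rest,
        Run (Cmd.loop 2 (body c)) (st (bits (w, a)) (cs ++ rest) [true]) (st (bits y) rest []) t := by
  intro cs
  induction cs with
  | nil =>
    intro w _ hy
    obtain ⟨t, ht, hr⟩ := hc (w, a)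
    simp only [List.reverse_nil, List.nil_append] at hy
    refine ⟨t + (1 + (4 + 1)) + 1 + 1, ?_, fun rest => ?_⟩
    · have h1 : (bits (w, a)).length ≤ sz a + 4 * (([] : List Bool).length + w.length) + 2 := by
        rw [bits_length, sz_pair]
        have := sz_word_le w
        simp only [List.length_nil]
        omega
      have := eval_mono p h1
      simp only [List.length_nil, zero_add, one_mul] at this ⊢
      omega
    · rw [List.nil_append]
      exact run_eq (Run.loopCons (by simp) (body_done hr hy rest) (Run.loopNil rfl)) rfl rfl rfl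
  | cons b cs ih =>
    intro w hn hy
    have h0 : Ψ (w, a) = none := by simpa using hn 0 (by simp)
    obtain ⟨t, ht, hr⟩ := hc (w, a)
    obtain ⟨t', ht', hr'⟩ := ih (b :: w) (fun i hi => by
      have := hn (i + 1) (by simpa using hi)
      simpa using this) (by simpa using hy)
    refine ⟨t + (1 + (ct b + 1)) + t' + 1, ?_, fun rest => ?_⟩
    · have h1 : (bits (w, a)).length ≤ sz a + 4 * ((b :: cs).length + w.length) + 2 := by
        rw [bits_length, sz_pair]
        have := sz_word_le w
        simp only [List.length_cons]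
        omega
      have h2 := eval_mono p h1
      have h3 : sz a + 4 * (cs.length + (b :: w).length) + 2 =
          sz a + 4 * ((b :: cs).length + w.length) + 2 := by
        simp only [List.length_cons]; ring
      rw [h3] at ht'
      have h4 : ct b ≤ 9 := by unfold ct; split_ifs <;> omega
      set P := p.eval (sz a + 4 * ((b :: cs).length + w.length) + 2) with hP
      have : (cs.length + 1) * (P + 20) + (P + 20) = ((b :: cs).length + 1) * (P + 20) := by
        simp only [List.length_cons]; ring
      rw [← this]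
      omega
    · exact Run.loopCons (by simp) (body_coin hr h0 b (cs ++ rest) [true]) (hr' rest)

/-- Append a parameter to the input. -/
def addPar (k : List Bool) : Cmd ℕ :=
  Cmd.seq (mv 0 1) (Cmd.seq (pushL 0 k) (Cmd.seq (mv 1 0) (Cmd.push 0 true)))

theorem addPar_runs {γ : Type} [TEnc γ] (a : α) (k : γ) :
    Runs (addPar (bits k)) (inp (bits a)) (inp (bits (a, k))) (8 * sz a + sz k + 4) := by
  rw [inp_eq_st, inp_eq_st]
  have h1 := mv_runs (i := 0) (j := 1) (by decide) (bits a) (st (bits a) [] []) _ rfl rfl
  have h2 := pushL_runs (i := 0) (bits k) (st [] (bits a).reverse []) (st (bits k) (bits a).reverse [])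
    (by simp)
  have h3 := mv_runs (i := 1) (j := 0) (by decide) (bits a).reverse
    (st (bits k) (bits a).reverse []) (st (bits a ++ bits k) [] []) rfl (by simp)
  have h4 := Runs.push (st (bits a ++ bits k) [] []) 0 true
  have e1 : update (update (st (bits a) [] []) 0 []) 1 ((bits a).reverse ++ st (bits a) [] [] 1) =
      st [] (bits a).reverse [] := by simp
  rw [e1] at h1
  refine (h1.seq (h2.seq (h3.seq h4))).conv rfl ?_ ?_
  · simp [bits, T.enc]
  · simp only [bits_length, List.length_reverse]
    omega

/-- **The program.** The polynomial does not depend on the parameter `k`. -/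
theorem exists_prog {γ : Type} [TEnc γ] {Ψ : List Bool × (α × γ) → Option β} (h : Poly Ψ) :
    ∃ q : Polynomial ℕ, ∀ k : γ, ∃ c : Cmd ℕ, ∀ (a : α) (cs : List Bool) (y : β),
      (∀ i < cs.length, Ψ ((cs.take i).reverse, (a, k)) = none) →
      Ψ (cs.reverse, (a, k)) = some y →
      ∃ t ≤ q.eval (sz a + sz k + cs.length), ∀ rest,
        Run c (st (bits a) (cs ++ rest) []) (st (bits y) rest []) t := by
  obtain ⟨c, p, hc⟩ := poly_tagged h
  refine ⟨(Polynomial.X + 1) * (p.comp (4 * Polynomial.X + 3) + 20) + 8 * Polynomial.X + 10,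
    fun k => ⟨Cmd.seq ((addPar (bits k)).map ren) (prog c), fun a cs y hn hy => ?_⟩⟩
  obtain ⟨t, ht, hr⟩ := loop_run (p := p) hc (a, k) cs [] (by simpa using hn) (by simpa using hy)
  obtain ⟨t₀, ht₀, hr₀⟩ := addPar_runs a k
  refine ⟨t₀ + (1 + (1 + (1 + t))), ?_, fun rest => ?_⟩
  · simp only [Polynomial.eval_add, Polynomial.eval_mul, Polynomial.eval_X, Polynomial.eval_one,
      Polynomial.eval_comp, Polynomial.eval_ofNat]
    have h1 : sz (a, k) + 4 * (cs.length + ([] : List Bool).length) + 2 ≤
        4 * (sz a + sz k + cs.length) + 3 := by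
      simp only [List.length_nil, sz_pair]; omega
    have h2 := eval_mono p h1
    have h3 : (cs.length + 1) *
        (p.eval (sz (a, k) + 4 * (cs.length + ([] : List Bool).length) + 2) + 20)
        ≤ (sz a + sz k + cs.length + 1) *
          (p.eval (4 * (sz a + sz k + cs.length) + 3) + 20) :=
      Nat.mul_le_mul (by omega) (by omega)
    omega
  · have h0 := map_ren hr₀ (cs ++ rest) []
    have h1 := push_st0 (bits (a, k)) (cs ++ rest) [] false
    have h2 := push_st0 (false :: bits (a, k)) (cs ++ rest) [] true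
    have h3 := push_st2 (true :: false :: bits (a, k)) (cs ++ rest) [] true
    have e : true :: false :: bits (a, k) = bits (([] : List Bool), (a, k)) := by
      simp [bits, T.enc]
    rw [e] at h3 h2
    exact h0.seq (h1.seq (h2.seq (h3.seq (hr rest))))

end

end Pool.Agent.H13R2.RM
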