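import Pool.Agent.H13R2.RM.Coins
import Pool.Agent.NPC.Defs

/-!
# Randomised algorithms: Turing machines with a stack of fair coins
-/

namespace Pool.Agent.H13R2.RM

open MeasureTheory ENNReal Turing Pool.Agent.NPC

/-- A randomised algorithm: a multi-stack machine (Mathlib's `Turing.FinTM2`) with finite stack
alphabets and a distinguished stack of coins. -/
structure CoinTM where
  /-- the machine -/
  tm : FinTM2
  /-- all stack alphabets are finite -/
  fin : ∀ k, Finite (tm.Γ k)
  /-- the stack of coins -/
  kc : tm.K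
  /-- it is not the input stack -/
  ne : kc ≠ tm.k₀
  /-- input symbols are bits -/
  inA : tm.Γ tm.k₀ ≃ Bool
  /-- output symbols are bits -/
  outA : tm.Γ tm.k₁ ≃ Bool
  /-- coins are bits -/
  coinA : tm.Γ kc ≃ Bool

namespace CoinTM

variable (M : CoinTM)

/-- The initial configuration with input `x` and with the coins `w` on the stack of coins. -/
def init (x w : List Bool) : M.tm.Cfg where
  l := some M.tm.main
  var := M.tm.initialState
  stk := Function.update (Function.update (fun _ => []) M.tm.k₀ (x.map M.inA.symm)) M.kc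
    (w.map M.coinA.symm)

/-- The machine, on input `x` and with the infinite sequence `ω` on its stack of coins, halts after
exactly `t` steps with output `y`. (In `t` steps only finitely many coins can be read: the
behaviour with the infinite stack `ω` is the behaviour with its first `n` coins, `n` large.) -/
def OutputsIn (x : List Bool) (ω : ℕ → Bool) (t : ℕ) (y : List Bool) : Prop :=
  ∃ n₀, ∀ n ≥ n₀, ∃ c : M.tm.Cfg, (flip bind M.tm.step)^[t] (some (M.init x (coins ω n))) = some c ∧
    c.l = none ∧ c.stk M.tm.k₁ = y.map M.outA.symm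

/-- The running time (`∞` if the machine does not halt). -/
noncomputable def time (x : List Bool) (ω : ℕ → Bool) : ℝ≥0∞ :=
  ⨅ (t : ℕ) (_ : ∃ y, M.OutputsIn x ω t y), (t : ℝ≥0∞)

/-- The probability that the machine outputs `y` on input `x`. -/
noncomputable def prob (x y : List Bool) : ℝ≥0∞ := fair {ω | ∃ t, M.OutputsIn x ω t y}

/-- The expected running time on input `x`. -/
noncomputable def expectedTime (x : List Bool) : ℝ≥0∞ := ∫⁻ ω, M.time x ω ∂fair

theorem OutputsIn.unique {x : List Bool} {ω : ℕ → Bool} {t t' : ℕ} {y y' : List Bool}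
    (h : M.OutputsIn x ω t y) (h' : M.OutputsIn x ω t' y') : t = t' ∧ y = y' := by
  obtain ⟨n₀, h⟩ := h
  obtain ⟨n₁, h'⟩ := h'
  obtain ⟨c, hc1, hc2, hc3⟩ := h (max n₀ n₁) (le_max_left _ _)
  obtain ⟨c', hc1', hc2', hc3'⟩ := h' (max n₀ n₁) (le_max_right _ _)
  have hhalt : ∀ c : M.tm.Cfg, c.l = none → M.tm.step c = none := by
    intro c hc
    obtain ⟨l, v, s⟩ := c
    simp only at hc
    subst hc
    rfl
  have hnone : ∀ k, (flip bind M.tm.step)^[k] (none : Option M.tm.Cfg) = none := by
    intro k
    induction k with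
    | zero => rfl
    | succ k ih => rw [Function.iterate_succ_apply]; exact ih
  have hafter : ∀ (s : Option M.tm.Cfg) (c c' : M.tm.Cfg) (t t' : ℕ),
      (flip bind M.tm.step)^[t] s = some c → c.l = none →
      (flip bind M.tm.step)^[t'] s = some c' → t' ≤ t := by
    intro s c c' t t' h1 h2 h3
    by_contra hcon
    push Not at hcon
    obtain ⟨k, rfl⟩ : ∃ k, t' = k + 1 + t := ⟨t' - t - 1, by omega⟩
    rw [Function.iterate_add_apply, h1, Function.iterate_succ_apply] at h3
    have : flip bind M.tm.step (some c) = none := by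
      change M.tm.step c = none
      exact hhalt c h2
    rw [this, hnone] at h3
    exact absurd h3 (by simp)
  have e : t = t' := le_antisymm (hafter _ _ _ _ _ hc1' hc2' hc1) (hafter _ _ _ _ _ hc1 hc2 hc1')
  subst e
  refine ⟨rfl, ?_⟩
  rw [hc1] at hc1'
  have := Option.some.inj hc1'
  subst this
  rw [hc3] at hc3'
  exact List.map_injective_iff.2 M.outA.symm.injective hc3'

theorem time_le {x : List Bool} {ω : ℕ → Bool} {t : ℕ} {y : List Bool}
    (h : M.OutputsIn x ω t y) : M.time x ω ≤ t :=
  iInf₂_le t ⟨y, h⟩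

theorem measurableSet_outputsIn (x : List Bool) (t : ℕ) (y : List Bool) :
    MeasurableSet {ω | M.OutputsIn x ω t y} := by
  have : {ω | M.OutputsIn x ω t y} = ⋃ n₀ : ℕ, ⋂ n : ℕ, ⋂ _ : n ≥ n₀,
      {ω | ∃ c : M.tm.Cfg, (flip bind M.tm.step)^[t] (some (M.init x (coins ω n))) = some c ∧
        c.l = none ∧ c.stk M.tm.k₁ = y.map M.outA.symm} := by
    ext ω
    simp only [Set.mem_ofPred_eq, Set.mem_iUnion, Set.mem_iInter]
    rfl
  rw [this]
  refine MeasurableSet.iUnion fun n₀ => MeasurableSet.iInter fun n => MeasurableSet.iInter fun _ =>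
    ?_
  exact measurableSet_coins n (fun w => ∃ c : M.tm.Cfg,
    (flip bind M.tm.step)^[t] (some (M.init x w)) = some c ∧
        c.l = none ∧ c.stk M.tm.k₁ = y.map M.outA.symm)

/-- The running time is a measurable function of the coins. -/
theorem measurable_time (x : List Bool) : Measurable (M.time x) := by
  classical
  unfold time
  refine Measurable.iInf fun t => ?_
  have : (fun ω => ⨅ (_ : ∃ y, M.OutputsIn x ω t y), (t : ℝ≥0∞)) =
      fun ω => if ω ∈ (⋃ y, {ω | M.OutputsIn x ω t y}) then (t : ℝ≥0∞) else ⊤ := by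
    funext ω
    by_cases h : ∃ y, M.OutputsIn x ω t y
    · have h' : ω ∈ (⋃ y, {ω | M.OutputsIn x ω t y}) := by simpa using h
      rw [if_pos h', ciInf_pos h]
    · have h' : ω ∉ (⋃ y, {ω | M.OutputsIn x ω t y}) := by simpa using h
      rw [if_neg h']
      simp [h]
  rw [this]
  exact Measurable.ite (MeasurableSet.iUnion fun y => M.measurableSet_outputsIn x t y)
    measurable_const measurable_const

end CoinTM

end Pool.Agent.H13R2.RM
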