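import Pool.Agent.H13R2.RM.Model
import Pool.Agent.H13R2.RM.Loop

/-!
# The coin machine of a program
-/

namespace Pool.Agent.H13R2.RM

open MeasureTheory ENNReal Turing Pool.Agent.NPC

/-- The coin machine of a program: input and output on stack `0`, coins on stack `1`. -/
def ofProg (c : Cmd ℕ) : CoinTM where
  tm := (c.map (Fin.ofNat (c.bd + 2))).toTM (n := c.bd + 1)
  fin := fun _ => inferInstanceAs (Finite Bool)
  kc := (1 : Fin (c.bd + 2))
  ne := by
    change (1 : Fin (c.bd + 2)) ≠ 0
    simp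
  inA := Equiv.refl Bool
  outA := Equiv.refl Bool
  coinA := Equiv.refl Bool

theorem ofProg_init (c : Cmd ℕ) (x w : List Bool) :
    (ofProg c).init x w = ⟨some (some (c.map (Fin.ofNat (c.bd + 2))).entry), none,
      fun i : Fin (c.bd + 2) => st x w [] i⟩ := by
  unfold CoinTM.init
  congr 1
  funext k
  change Fin (c.bd + 2) at k
  by_cases hk : k = (1 : Fin (c.bd + 2))
  · subst hk
    refine Eq.trans (Function.update_self (ofProg c).kc _ _) ?_
    change w.map (Equiv.refl Bool).symm = st x w [] ((1 : Fin (c.bd + 2)) : ℕ)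
    simp
  · refine Eq.trans (Function.update_of_ne (show k ≠ (ofProg c).kc from hk) _ _) ?_
    by_cases hk0 : k = (0 : Fin (c.bd + 2))
    · subst hk0
      refine Eq.trans (Function.update_self (ofProg c).tm.k₀ _ _) ?_
      change x.map (Equiv.refl Bool).symm = st x w [] ((0 : Fin (c.bd + 2)) : ℕ)
      simp
    · refine Eq.trans (Function.update_of_ne (show k ≠ (ofProg c).tm.k₀ from hk0) _ _) ?_
      change ([] : List Bool) = st x w [] (k : ℕ)
      have h0 : (k : ℕ) ≠ 0 := fun h => hk0 (Fin.ext h)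
      have h1 : (k : ℕ) ≠ 1 := fun h => hk (Fin.ext (by simpa using h))
      obtain ⟨j, hj⟩ : ∃ j, (k : ℕ) = j + 2 := ⟨k - 2, by omega⟩
      rw [hj]
      cases j <;> rfl

theorem ofProg_outputs {c : Cmd ℕ} {x y cs : List Bool} {t : ℕ} {ω : ℕ → Bool}
    (h : ∀ rest, Run c (st x (cs ++ rest) []) (st y rest []) t) (hω : coins ω cs.length = cs) :
    (ofProg c).OutputsIn x ω (t + 1) y := by
  refine ⟨cs.length, fun n hn => ?_⟩
  obtain ⟨k, rfl⟩ := Nat.exists_eq_add_of_le hn
  rw [coins_add, hω]
  set rest := coins (shift cs.length ω) k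
  have h1 := (h rest).restrict (n := c.bd + 1) (by omega)
  obtain ⟨v, hv⟩ := code_correct h1 (L := Option (c.map (Fin.ofNat (c.bd + 2))).Lbl)
    (fun l => Option.rec (TM2.Stmt.load (fun _ => none) TM2.Stmt.halt)
      (fun l => (c.map (Fin.ofNat (c.bd + 2))).code some none l) l) some none (fun l => rfl) none
  refine ⟨⟨none, none, fun i : Fin (c.bd + 2) => st y rest [] i⟩, ?_, rfl, ?_⟩
  · rw [ofProg_init, add_comm, Function.iterate_add_apply]
    have hv' : (flip bind (ofProg c).tm.step)^[t]
        (some (⟨some (some (c.map (Fin.ofNat (c.bd + 2))).entry), none,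
          fun i : Fin (c.bd + 2) => st x (cs ++ rest) [] i⟩ : (ofProg c).tm.Cfg)) =
        some ⟨some none, v, fun i : Fin (c.bd + 2) => st y rest [] i⟩ := hv
    rw [hv']
    rfl
  · change st y rest [] ((0 : Fin (c.bd + 2)) : ℕ) = y.map (Equiv.refl Bool).symm
    simp

/-- **From polynomial-time tests to randomised algorithms.** The polynomial does not depend on the
parameter `k`. -/
theorem exists_machine {α β γ : Type} [TEnc α] [TEnc β] [TEnc γ]
    {Ψ : List Bool × (α × γ) → Option β}
    (h : Poly Ψ) : ∃ q : Polynomial ℕ, ∀ k : γ, ∃ M : CoinTM,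
      ∀ (a : α) (ω : ℕ → Bool) (n : ℕ) (y : β),
      (∀ i < n, Ψ ((coins ω i).reverse, (a, k)) = none) →
      Ψ ((coins ω n).reverse, (a, k)) = some y →
      ∃ t ≤ q.eval (sz a + sz k + n), M.OutputsIn (bits a) ω t (bits y) := by
  obtain ⟨q, hq⟩ := exists_prog h
  refine ⟨q + 1, fun k => ?_⟩
  obtain ⟨c, hc⟩ := hq k
  refine ⟨ofProg c, fun a ω n y hn hy => ?_⟩
  obtain ⟨t, ht, hr⟩ := hc a (coins ω n) y (fun i hi => by
    rw [coins_length] at hi
    have : (coins ω n).take i = coins ω i := by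
      obtain ⟨k, rfl⟩ := Nat.exists_eq_add_of_le hi.le
      rw [coins_add, List.take_left' (coins_length ω i)]
    rw [this]
    exact hn i hi) hy
  refine ⟨t + 1, ?_, ofProg_outputs hr (by rw [coins_length])⟩
  rw [coins_length] at ht
  simp only [Polynomial.eval_add, Polynomial.eval_one]
  omega

end Pool.Agent.H13R2.RM
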