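import Pool.Agent.H13R2.RM.Law
import Pool.Agent.H13R2.RM.OfProg

/-!
# The expected time of a two-phase sampler
-/

namespace Pool.Agent.H13R2.RM

open MeasureTheory ENNReal Pool.Agent.NPC

/-- Polynomials are bounded by monomials. -/
theorem eval_le_monomial (q : Polynomial ℕ) : ∃ C d : ℕ, 0 < C ∧
    ∀ n, q.eval n + 1 ≤ C * (n + 1) ^ d := by
  refine ⟨(∑ i ∈ Finset.range (q.natDegree + 1), q.coeff i) + 1, q.natDegree, by omega,
    fun n => ?_⟩
  rw [Polynomial.eval_eq_sum_range, add_mul, Finset.sum_mul, one_mul]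
  refine Nat.add_le_add (Finset.sum_le_sum fun i hi => ?_) (Nat.one_le_pow _ _ (by omega))
  have hi' : i ≤ q.natDegree := by
    have := Finset.mem_range.1 hi; omega
  exact Nat.mul_le_mul_left _ ((Nat.pow_le_pow_left (by omega) i).trans
    (Nat.pow_le_pow_right (by omega) hi'))

/-- `∑ (j+1)^d r^j ≤ d! / (1-r)^(d+1)`. -/
theorem tsum_pow_geometric_le (d : ℕ) (r : ℝ≥0∞) (hr : r ≤ 1) :
    ∑' j : ℕ, ((j : ℝ≥0∞) + 1) ^ d * r ^ j ≤ d.factorial * ((1 - r)⁻¹) ^ (d + 1) := by
  rcases hr.eq_or_lt with h1 | h1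
  · subst h1
    have h2 : ((1 : ℝ≥0∞) - 1)⁻¹ = ⊤ := by simp
    rw [h2, ENNReal.top_pow (by omega), ENNReal.mul_top]
    · exact le_top
    · exact_mod_cast d.factorial_ne_zero
  · have hrt : r ≠ ⊤ := ne_top_of_lt h1
    have h3 : r.toReal < 1 := by
      rw [← ENNReal.toReal_one]
      exact (ENNReal.toReal_lt_toReal hrt ENNReal.one_ne_top).2 h1
    have h0 : 0 ≤ r.toReal := ENNReal.toReal_nonneg
    have hnorm : ‖r.toReal‖ < 1 := by rw [Real.norm_of_nonneg h0]; exact h3
    have h4 := hasSum_choose_mul_geometric_of_norm_lt_one d hnorm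
    have h5 : ∑' j : ℕ, ((((j + d).choose d : ℕ) : ℝ≥0∞) * r ^ j) = ((1 - r)⁻¹) ^ (d + 1) := by
      have h6 : ∀ j : ℕ, ((((j + d).choose d : ℕ) : ℝ≥0∞) * r ^ j) =
          ENNReal.ofReal (((j + d).choose d : ℕ) * r.toReal ^ j) := by
        intro j
        rw [ENNReal.ofReal_mul (by positivity), ENNReal.ofReal_natCast,
          ENNReal.ofReal_pow h0, ENNReal.ofReal_toReal hrt]
      rw [tsum_congr h6, ← ENNReal.ofReal_tsum_of_nonneg (fun j => by positivity) h4.summable,
        h4.tsum_eq]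
      have h7 : 0 < 1 - r.toReal := by linarith
      rw [one_div, ENNReal.ofReal_inv_of_pos (by positivity), ENNReal.ofReal_pow h7.le,
        ENNReal.ofReal_sub _ h0, ENNReal.ofReal_one, ENNReal.ofReal_toReal hrt, ENNReal.inv_pow]
    rw [← h5, ← ENNReal.tsum_mul_left]
    refine ENNReal.tsum_le_tsum fun j => ?_
    rw [← mul_assoc]
    gcongr
    have h8 : (j + 1) ^ d ≤ d.factorial * (j + d).choose d := by
      rw [← Nat.ascFactorial_eq_factorial_mul_choose]
      exact Nat.pow_succ_le_ascFactorial (j + 1) d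
    exact_mod_cast h8

variable {β : Type} {D : List Bool → Option β} {k M K b : ℕ} {f : List Bool → β}
  {g : List Bool → Option β}

/-- The expected time, for a monomial bound on the time. -/
theorem Spec.time (h : Spec D k M K b f g) (T : (ℕ → Bool) → ℝ≥0∞) (C d s : ℕ)
    (hT : ∀ ω n y, Stops D ω n y → T ω ≤ (C * (s + n + 1) ^ d : ℕ)) (hC : 0 < C) :
    ∫⁻ ω, T ω ∂fair ≤ (C * (s + k + M + 1) ^ d : ℕ) +
      (2 ^ k)⁻¹ * ((C * (s + k + K + b + 1) ^ d : ℕ) * (d.factorial *
        ((1 - fair {ω | g (coins ω b) = none})⁻¹) ^ (d + 1))) := by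
  set r := fair {ω | g (coins ω b) = none} with hr
  have hr1 : r ≤ 1 := prob_le_one
  set R : ℕ → Set (ℕ → Bool) := fun j =>
    {ω | ones ((coins ω (k + K)).take k) = true ∧ shift (k + K) ω ∈ REJ g b j} with hR
  have hRm : ∀ j, MeasurableSet (R j) := fun j =>
    (measurableSet_coins (k + K) (fun w => ones (w.take k) = true)).inter
      (measurable_shift (k + K) (measurable_REJ g b j))
  have htake : ∀ ω, (coins ω (k + K)).take k = coins ω k := fun ω => by
    rw [coins_add, List.take_left' (coins_length ω k)]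
  have hRf : ∀ j, fair (R j) = (2 ^ k)⁻¹ * r ^ j := by
    intro j
    rw [hR]
    simp only
    rw [fair_split (k + K) (fun w => ones (w.take k) = true) (measurable_REJ g b j), fair_REJ,
      ← hr, ← fair_ones k]
    congr 2
    ext ω
    simp only [Set.mem_ofPred_eq, htake]
  -- pointwise bound
  have hpt : ∀ ω, T ω ≤ (C * (s + k + M + 1) ^ d : ℕ) +
      ∑' j : ℕ, (R j).indicator (fun _ => ((C * (s + (k + K + (j + 1) * b) + 1) ^ d : ℕ) : ℝ≥0∞)) ω := by
    intro ω
    cases ho : ones (coins ω k) with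
    | false =>
      have := hT ω _ _ (h.stops_a ho)
      refine this.trans ?_
      rw [show s + (k + M) + 1 = s + k + M + 1 by ring]
      exact le_self_add
    | true =>
      by_cases hex : ∃ j, g (coins (shift (j * b) (shift (k + K) ω)) b) ≠ none
      · classical
        have h1 := Nat.find_spec hex
        set j := Nat.find hex with hj
        have h2 : ∀ i < j, g (coins (shift (i * b) (shift (k + K) ω)) b) = none := by
          intro i hi
          have := Nat.find_min hex hi
          push Not at this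
          exact this
        obtain ⟨y, hy⟩ := Option.ne_none_iff_exists'.1 h1
        have h3 := hT ω _ y (h.stops_b ho (j := j) ⟨h2, hy⟩)
        refine h3.trans (le_trans ?_ le_add_self)
        refine le_trans ?_ (ENNReal.le_tsum j)
        rw [Set.indicator_of_mem]
        exact ⟨by rw [htake]; exact ho, h2⟩
      · push Not at hex
        have h4 : ∀ j, ω ∈ R j := fun j => ⟨by rw [htake]; exact ho, fun i _ => hex i⟩
        have h5 : ∑' j : ℕ, (R j).indicator
            (fun _ => ((C * (s + (k + K + (j + 1) * b) + 1) ^ d : ℕ) : ℝ≥0∞)) ω = ⊤ := by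
          rw [eq_top_iff]
          have h6 : ∑' _j : ℕ, (1 : ℝ≥0∞) = ⊤ := ENNReal.tsum_const_eq_top_of_ne_zero one_ne_zero
          rw [← h6]
          refine ENNReal.tsum_le_tsum fun j => ?_
          rw [Set.indicator_of_mem (h4 j)]
          have : 1 ≤ C * (s + (k + K + (j + 1) * b) + 1) ^ d :=
            Nat.mul_pos hC (Nat.pow_pos (by omega))
          exact_mod_cast this
        rw [h5, add_top]
        exact le_top
  refine (lintegral_mono hpt).trans ?_
  rw [lintegral_add_left measurable_const, lintegral_const, measure_univ, mul_one,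
    lintegral_tsum fun j => (measurable_const.indicator (hRm j)).aemeasurable]
  refine add_le_add_right ?_ _
  have h7 : ∀ j : ℕ, ∫⁻ ω, (R j).indicator
      (fun _ => ((C * (s + (k + K + (j + 1) * b) + 1) ^ d : ℕ) : ℝ≥0∞)) ω ∂fair ≤
      (2 ^ k)⁻¹ * ((C * (s + k + K + b + 1) ^ d : ℕ) * (((j : ℝ≥0∞) + 1) ^ d * r ^ j)) := by
    intro j
    rw [lintegral_indicator (hRm j), lintegral_const, Measure.restrict_apply_univ, hRf]
    have h8 : C * (s + (k + K + (j + 1) * b) + 1) ^ d ≤
        C * (s + k + K + b + 1) ^ d * (j + 1) ^ d := by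
      rw [mul_assoc, ← mul_pow]
      refine Nat.mul_le_mul_left _ (Nat.pow_le_pow_left ?_ d)
      nlinarith [Nat.zero_le (j * (s + k + K + 1))]
    have h9 : ((C * (s + (k + K + (j + 1) * b) + 1) ^ d : ℕ) : ℝ≥0∞) ≤
        ((C * (s + k + K + b + 1) ^ d : ℕ) : ℝ≥0∞) * ((j : ℝ≥0∞) + 1) ^ d := by
      exact_mod_cast h8
    calc ((C * (s + (k + K + (j + 1) * b) + 1) ^ d : ℕ) : ℝ≥0∞) * ((2 ^ k)⁻¹ * r ^ j)
        ≤ (((C * (s + k + K + b + 1) ^ d : ℕ) : ℝ≥0∞) * ((j : ℝ≥0∞) + 1) ^ d) *
          ((2 ^ k)⁻¹ * r ^ j) := mul_le_mul_left h9 _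
      _ = _ := by ring
  refine (ENNReal.tsum_le_tsum h7).trans ?_
  rw [ENNReal.tsum_mul_left, ENNReal.tsum_mul_left]
  gcongr
  exact tsum_pow_geometric_le d r hr1

end Pool.Agent.H13R2.RM
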